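import Pool.Agent.Lib_helper50.A1.Wint
import Pool.Agent.Lib_helper28.A1.T3b

/-!
# MP_859019, project A1, block WI: the `w`-integrals of `Tr B (N + i w J)⁻¹`

For `N > 0` and hermitian `J`, `Z = N + i w J`:
* `(2/π) ∫ Re Tr B Z⁻¹ dw = Tr B S` for `S = S_J(N)` (`J` invertible);
* `(2/π) ∫ -(1/w) Im Tr B Z⁻¹ dw = Tr B S J N⁻¹`, which is `± Tr B N⁻¹` for `± J > 0`.
-/

set_option autoImplicit false
set_option linter.unusedSectionVars false

open scoped BigOperators ComplexOrder Kronecker MatrixOrder Topology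
open MeasureTheory Set Matrix Filter

namespace Pool.Agent.A1

open Pool.Agent.Lib_helper59.Lieb (rtr rtr_mul_comm dg)

variable {ι : Type} [Fintype ι] [DecidableEq ι]

namespace Frame

variable {N J V W : Matrix ι ι ℂ} {l : ι → ℝ}

/-- `S_J(N)` in a frame -/
theorem isS (h : Frame N J V W l) (hl : ∀ k, l k ≠ 0) :
    IsS J N (V * dg (fun k => |l k|⁻¹) * Vᴴ) := by
  have h1 := isS_of_diag (C := W) (C' := V) h.wv hl
  have e1 : Wᴴ * dg l * W = J := h.eqJ.symm
  rw [e1, ← h.eqN] at h1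
  exact h1

theorem ne_zero (h : Frame N J V W l) (hJ : IsUnit J) (k : ι) : l k ≠ 0 := by
  have hV : IsUnit V := IsUnit.of_mul_eq_one _ h.vw
  have hV' : IsUnit Vᴴ := IsUnit.of_mul_eq_one _ h.wv'
  have h1 : IsUnit (Vᴴ * J * V) := (hV'.mul hJ).mul hV
  rw [h.hJ, Matrix.isUnit_diagonal] at h1
  have h2 := (Pi.isUnit_iff.1 h1) k
  intro h0
  rw [h0, Complex.ofReal_zero] at h2
  exact not_isUnit_zero h2

theorem rtr_mul_frame (B : Matrix ι ι ℂ) (f : ι → ℝ) :
    rtr (B * (V * dg f * Vᴴ)) = ∑ k, (dgn V B k).re * f k := by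
  have e : rtr (B * (V * dg f * Vᴴ)) = rtr (Vᴴ * B * V * dg f) := by
    calc _ = rtr ((B * V * dg f) * Vᴴ) := by simp only [mul_assoc]
      _ = rtr (Vᴴ * (B * V * dg f)) := rtr_mul_comm _ _
      _ = _ := by simp only [mul_assoc]
  rw [e]
  unfold rtr Matrix.trace dg
  rw [Complex.re_sum]
  apply Finset.sum_congr rfl
  intro k _
  rw [Matrix.diag_apply, Matrix.mul_diagonal, Complex.mul_re, Complex.ofReal_re,
    Complex.ofReal_im, mul_zero, sub_zero]
  rfl

/-- integrability of `Re Tr B Z⁻¹` for invertible `J` -/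
theorem integrable_re' (h : Frame N J V W l) (hl : ∀ k, l k ≠ 0) {B : Matrix ι ι ℂ}
    (hB : B.IsHermitian) :
    IntegrableOn (fun w => ((B * (Zm N J w)⁻¹).trace).re) (Ioi 0) := by
  have e : (fun w => ((B * (Zm N J w)⁻¹).trace).re) =
      fun w => ∑ k, (dgn V B k).re * ker (l k) w := by
    funext w; rw [h.re_trace hB]; rfl
  rw [e]
  apply integrable_finsetSum
  intro k _
  exact (integrableOn_ker (hl k)).const_mul _

theorem integral_re (h : Frame N J V W l) (hl : ∀ k, l k ≠ 0) {B : Matrix ι ι ℂ}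
    (hB : B.IsHermitian) :
    ∫ w in Ioi (0 : ℝ), ((B * (Zm N J w)⁻¹).trace).re =
      Real.pi / 2 * rtr (B * (V * dg (fun k => |l k|⁻¹) * Vᴴ)) := by
  have e : (fun w => ((B * (Zm N J w)⁻¹).trace).re) =
      fun w => ∑ k, (dgn V B k).re * ker (l k) w := by
    funext w; rw [h.re_trace hB]; rfl
  rw [e, integral_finsetSum _ fun k _ => (integrableOn_ker (hl k)).const_mul _, rtr_mul_frame,
    Finset.mul_sum]
  apply Finset.sum_congr rfl
  intro k _
  rw [integral_const_mul, integral_ker (hl k)]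
  ring

/-- the imaginary part, for every hermitian `J` -/
theorem integral_im_w (h : Frame N J V W l) {B : Matrix ι ι ℂ} (hB : B.IsHermitian) :
    ∫ w in Ioi (0 : ℝ), -(((B * (Zm N J w)⁻¹).trace).im / w) =
      Real.pi / 2 * ∑ k, (dgn V B k).re * SignType.sign (l k) := by
  have e : ∫ w in Ioi (0 : ℝ), -(((B * (Zm N J w)⁻¹).trace).im / w) =
      ∫ w in Ioi (0 : ℝ), ∑ k, (dgn V B k).re * (l k * ker (l k) w) := by
    apply setIntegral_congr_fun measurableSet_Ioi
    intro w hw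
    exact h.im_div hB (ne_of_gt hw)
  rw [e, integral_finsetSum _ fun k _ => (integrableOn_mul_ker (l k)).const_mul _,
    Finset.mul_sum]
  apply Finset.sum_congr rfl
  intro k _
  rw [integral_const_mul, integral_mul_ker]
  ring

/-- the imaginary part against `B ≥ 0` -/
theorem integral_abs_im_le_psd (h : Frame N J V W l) {B : Matrix ι ι ℂ} (hB : B.PosSemidef) :
    ∫ w in Ioi (0 : ℝ), |-(((B * (Zm N J w)⁻¹).trace).im / w)| ≤
      Real.pi / 2 * rtr (B * N⁻¹) := by
  have hd : ∀ k, 0 ≤ (dgn V B k).re := by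
    intro k
    have h1 : (Vᴴ * B * V).PosSemidef := hB.conjTranspose_mul_mul_same V
    have h2 := h1.diag_nonneg (i := k)
    rw [Complex.le_def] at h2
    exact h2.1
  have hint : ∀ k, IntegrableOn (fun w => (dgn V B k).re * (|l k| * ker (l k) w)) (Ioi 0) := by
    intro k
    apply Integrable.const_mul
    by_cases hl : l k = 0
    · simp [hl]
    · exact (integrableOn_ker hl).const_mul _
  have h1 : ∫ w in Ioi (0 : ℝ), |-(((B * (Zm N J w)⁻¹).trace).im / w)| ≤
      ∫ w in Ioi (0 : ℝ), ∑ k, (dgn V B k).re * (|l k| * ker (l k) w) := by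
    apply setIntegral_mono_on (h.integrable_im hB.1).abs
      (integrable_finsetSum _ fun k _ => hint k) measurableSet_Ioi
    intro w hw
    rw [h.im_div hB.1 (ne_of_gt hw)]
    refine (Finset.abs_sum_le_sum_abs _ _).trans ?_
    apply Finset.sum_le_sum
    intro k _
    rw [abs_mul, abs_mul, abs_of_nonneg (ker_nonneg _ _), abs_of_nonneg (hd k)]
  refine h1.trans ?_
  rw [integral_finsetSum _ fun k _ => hint k]
  have e : rtr (B * N⁻¹) = ∑ k, (dgn V B k).re := by
    have h2 := rtr_mul_frame (V := V) B (fun _ => 1)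
    have h3 : V * dg (fun _ => (1 : ℝ)) * Vᴴ = N⁻¹ := by
      rw [h.invN]
      simp [dg]
    rw [h3] at h2
    simpa using h2
  rw [e, Finset.mul_sum]
  apply Finset.sum_le_sum
  intro k _
  rw [integral_const_mul, mul_comm]
  exact mul_le_mul_of_nonneg_right (integral_abs_mul_ker_le _) (hd k)

end Frame

section

variable {N J S B : Matrix ι ι ℂ}

theorem IsS.isUnit_J (h : IsS J N S) : IsUnit J := by
  have h1 : J * (S * J * S) = 1 := by
    rw [← mul_assoc, ← mul_assoc]
    exact h.inv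
  exact IsUnit.of_mul_eq_one _ h1

/-- existence of `S_J(N)` -/
theorem exists_isS_w (hN : N.PosDef) (hJ : J.IsHermitian) (hu : IsUnit J) : ∃ S, IsS J N S := by
  obtain ⟨V, W, l, h⟩ := exists_frame hN hJ
  exact ⟨_, h.isS (h.ne_zero hu)⟩

theorem integrableOn_re (hN : N.PosDef) (hJ : J.IsHermitian) (hu : IsUnit J)
    (hB : B.IsHermitian) :
    IntegrableOn (fun w => ((B * (Zm N J w)⁻¹).trace).re) (Ioi 0) := by
  obtain ⟨V, W, l, h⟩ := exists_frame hN hJ
  exact h.integrable_re' (h.ne_zero hu) hB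

/-- `(2/π) ∫ Re Tr B Z⁻¹ dw = Tr B S_J(N)` -/
theorem wint_re (hN : N.PosDef) (hJ : J.IsHermitian) (hS : IsS J N S) (hB : B.IsHermitian) :
    2 / Real.pi * ∫ w in Ioi (0 : ℝ), ((B * (Zm N J w)⁻¹).trace).re = rtr (B * S) := by
  obtain ⟨V, W, l, h⟩ := exists_frame hN hJ
  have hl := h.ne_zero hS.isUnit_J
  have h1 := IsS.unique hJ hN hS (h.isS hl)
  rw [h.integral_re hl hB, ← h1]
  have := Real.pi_ne_zero
  field_simp

/-- the sign function of the pencil: `(2/π) ∫ -(1/w) Im Tr B Z⁻¹ dw = Tr B S J N⁻¹` -/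
theorem wint_im (hN : N.PosDef) (hJ : J.IsHermitian) (hS : IsS J N S) (hB : B.IsHermitian) :
    2 / Real.pi * ∫ w in Ioi (0 : ℝ), -(((B * (Zm N J w)⁻¹).trace).im / w) =
      rtr (B * (S * J * N⁻¹)) := by
  obtain ⟨V, W, l, h⟩ := exists_frame hN hJ
  have hl := h.ne_zero hS.isUnit_J
  have h1 := IsS.unique hJ hN hS (h.isS hl)
  have e : S * J * N⁻¹ = V * dg (fun k => ((SignType.sign (l k) : SignType) : ℝ)) * Vᴴ := by
    have e1 : dg (fun k => |l k|⁻¹) * dg l =
        (dg (fun k => ((SignType.sign (l k) : SignType) : ℝ)) : Matrix ι ι ℂ) := by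
      unfold dg
      rw [Matrix.diagonal_mul_diagonal]
      congr 1
      funext k
      rw [← Complex.ofReal_mul]
      congr 1
      show |l k|⁻¹ * l k = ((SignType.sign (l k) : SignType) : ℝ)
      rcases lt_or_gt_of_ne (hl k) with hk | hk
      · rw [abs_of_neg hk, sign_neg hk]
        simp only [SignType.coe_neg_one]
        have := hk.ne
        field_simp
      · rw [abs_of_pos hk, sign_pos hk]
        simp only [SignType.coe_one]
        have := hk.ne'
        field_simp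
    have e2 : J = Wᴴ * dg l * W := h.eqJ
    calc S * J * N⁻¹ = V * dg (fun k => |l k|⁻¹) * Vᴴ * (Wᴴ * dg l * W) * (V * Vᴴ) := by
          rw [h1, ← e2, h.invN]
      _ = V * (dg (fun k => |l k|⁻¹) * (Vᴴ * Wᴴ) * dg l) * (W * V) * Vᴴ := by
          simp only [mul_assoc]
      _ = _ := by rw [h.wv', mul_one, e1, h.wv, mul_one]
  rw [h.integral_im_w hB, e, Frame.rtr_mul_frame]
  have := Real.pi_ne_zero
  field_simp

theorem Frame.pos_of_posDef {V W : Matrix ι ι ℂ} {l : ι → ℝ} (h : Frame N J V W l)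
    (hJ : J.PosDef) (k : ι) : 0 < l k := by
  have h1 : (Vᴴ * J * V).PosDef := by
    apply hJ.conjTranspose_mul_mul_same
    intro x y hxy
    have h2 := congrArg (fun v => W.mulVec v) hxy
    simpa [Matrix.mulVec_mulVec, h.wv] using h2
  rw [h.hJ] at h1
  have h2 := h1.diag_pos (i := k)
  rw [Matrix.diagonal_apply_eq] at h2
  exact_mod_cast h2

/-- `J > 0` -/
theorem wint_im_pos (hN : N.PosDef) (hJ : J.PosDef) (hB : B.IsHermitian) :
    2 / Real.pi * ∫ w in Ioi (0 : ℝ), -(((B * (Zm N J w)⁻¹).trace).im / w) =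
      rtr (B * N⁻¹) := by
  obtain ⟨V, W, l, h⟩ := exists_frame hN hJ.1
  have hl := h.pos_of_posDef hJ
  have e : rtr (B * N⁻¹) = ∑ k, (Frame.dgn V B k).re := by
    have h2 := Frame.rtr_mul_frame (V := V) B (fun _ => 1)
    have h3 : V * dg (fun _ => (1 : ℝ)) * Vᴴ = N⁻¹ := by
      rw [h.invN]
      simp [dg]
    rw [h3] at h2
    simpa using h2
  rw [h.integral_im_w hB, e]
  have h1 : ∑ k, (Frame.dgn V B k).re * (SignType.sign (l k) : ℝ) = ∑ k, (Frame.dgn V B k).re := by
    apply Finset.sum_congr rfl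
    intro k _
    rw [sign_pos (hl k)]
    simp
  rw [h1]
  have := Real.pi_ne_zero
  field_simp

/-- `J < 0` -/
theorem wint_im_neg (hN : N.PosDef) (hJ : (-J).PosDef) (hB : B.IsHermitian) :
    2 / Real.pi * ∫ w in Ioi (0 : ℝ), -(((B * (Zm N J w)⁻¹).trace).im / w) =
      - rtr (B * N⁻¹) := by
  have hJh : J.IsHermitian := by
    have := hJ.1.neg
    rwa [neg_neg] at this
  obtain ⟨V, W, l, h⟩ := exists_frame hN hJh
  have hl : ∀ k, l k < 0 := by
    intro k
    have h' : Frame N (-J) V W (fun k => - l k) := by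
      refine ⟨h.vw, h.wv, h.hN, ?_⟩
      rw [mul_neg, neg_mul, h.hJ]
      ext i j
      by_cases hij : i = j
      · subst hij; simp
      · simp [hij]
    have := h'.pos_of_posDef hJ k
    linarith
  have e : rtr (B * N⁻¹) = ∑ k, (Frame.dgn V B k).re := by
    have h2 := Frame.rtr_mul_frame (V := V) B (fun _ => 1)
    have h3 : V * dg (fun _ => (1 : ℝ)) * Vᴴ = N⁻¹ := by
      rw [h.invN]
      simp [dg]
    rw [h3] at h2
    simpa using h2
  rw [h.integral_im_w hB, e]
  have h1 : ∑ k, (Frame.dgn V B k).re * (SignType.sign (l k) : ℝ) =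
      - ∑ k, (Frame.dgn V B k).re := by
    rw [← Finset.sum_neg_distrib]
    apply Finset.sum_congr rfl
    intro k _
    rw [sign_neg (hl k)]
    simp
  rw [h1]
  have := Real.pi_ne_zero
  field_simp

end

end Pool.Agent.A1
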