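import Pool.Agent.Lib_helper32.A1.WI
import Pool.Agent.Lib_helper50.A1.Ub2

/-!
# MP_859019, project A1, block WI in the letters of the project

For strict pairs, `-1 ≤ c ≤ 1`, `e ≥ 0`, `0 ≤ t ≤ 1` and `det W_c ≠ 0`:
`pc c e t = Tr Δ_c S_t`, `qc c e = Tr (D₁ ⊗ R₂) S_0 J_c N_0⁻¹`, where `S_t = S_{J_c}(N_t)`.
-/

set_option autoImplicit false
set_option linter.unusedSectionVars false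

open scoped BigOperators ComplexOrder Kronecker MatrixOrder Topology
open MeasureTheory Set Matrix Filter

namespace Pool.Agent.A1

open Pool.Agent.Lib_helper59.Lieb (rtr rtr_mul_comm dg)

variable {ι κ : Type} [Fintype ι] [DecidableEq ι] [Fintype κ] [DecidableEq κ]
variable {R₁ D₁ : Matrix ι ι ℂ} {R₂ D₂ : Matrix κ κ ℂ} {c e t : ℝ}

/-- `J_c` is invertible when `W_c` is -/
theorem isUnit_Jc (h₁ : SPair R₁ D₁) (hc : c ∈ Icc (-1 : ℝ) 1) (hW : IsUnit (Wc R₂ D₂ c)) :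
    IsUnit (Jc R₁ D₁ R₂ D₂ c) := by
  have hX : IsUnit (Xc R₁ D₁ c) := (Xc_posDef h₁ hc).isUnit
  rw [Matrix.isUnit_iff_isUnit_det] at hX hW ⊢
  unfold Jc
  rw [Matrix.det_kronecker]
  exact (hX.pow _).mul (hW.pow _)

theorem exists_isS_Nt_w (h₁ : SPair R₁ D₁) (h₂ : SPair R₂ D₂) (hc : c ∈ Icc (-1 : ℝ) 1)
    (he : 0 ≤ e) (ht : t ∈ Icc (0 : ℝ) 1) (hW : IsUnit (Wc R₂ D₂ c)) :
    ∃ S, IsS (Jc R₁ D₁ R₂ D₂ c) (Nt R₁ D₁ R₂ D₂ c e t) S :=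
  exists_isS_w (Nt_posDef h₁ h₂ hc he ht) (Jc_herm h₁ h₂ c) (isUnit_Jc h₁ hc hW)

/-- `(2/π) ∫ Re Tr B Z_t⁻¹ dw = Tr B S_t` -/
theorem wint_re_Zt (h₁ : SPair R₁ D₁) (h₂ : SPair R₂ D₂) (hc : c ∈ Icc (-1 : ℝ) 1)
    (he : 0 ≤ e) (ht : t ∈ Icc (0 : ℝ) 1) {S B : Matrix (ι × κ) (ι × κ) ℂ}
    (hS : IsS (Jc R₁ D₁ R₂ D₂ c) (Nt R₁ D₁ R₂ D₂ c e t) S) (hB : B.IsHermitian) :
    2 / Real.pi * ∫ w in Ioi (0 : ℝ), (tz R₁ D₁ R₂ D₂ B c e t w).re = rtr (B * S) := by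
  have h := wint_re (Nt_posDef h₁ h₂ hc he ht) (Jc_herm h₁ h₂ c) hS hB
  rw [← h]
  congr 1
  apply integral_congr_ae
  filter_upwards with w
  unfold tz
  rw [Zt_eq_Zm]

/-- `(2/π) ∫ -(1/w) Im Tr B Z_t⁻¹ dw = Tr B S_t J N_t⁻¹` -/
theorem wint_im_Zt (h₁ : SPair R₁ D₁) (h₂ : SPair R₂ D₂) (hc : c ∈ Icc (-1 : ℝ) 1)
    (he : 0 ≤ e) (ht : t ∈ Icc (0 : ℝ) 1) {S B : Matrix (ι × κ) (ι × κ) ℂ}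
    (hS : IsS (Jc R₁ D₁ R₂ D₂ c) (Nt R₁ D₁ R₂ D₂ c e t) S) (hB : B.IsHermitian) :
    2 / Real.pi * ∫ w in Ioi (0 : ℝ), -(1 / w) * (tz R₁ D₁ R₂ D₂ B c e t w).im =
      rtr (B * (S * Jc R₁ D₁ R₂ D₂ c * (Nt R₁ D₁ R₂ D₂ c e t)⁻¹)) := by
  have h := wint_im (Nt_posDef h₁ h₂ hc he ht) (Jc_herm h₁ h₂ c) hS hB
  rw [← h]
  congr 1
  apply integral_congr_ae
  filter_upwards with w
  unfold tz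
  rw [Zt_eq_Zm]
  ring

/-- `p(c,e,t) = Tr Δ_c S_t` -/
theorem pc_eq (h₁ : SPair R₁ D₁) (h₂ : SPair R₂ D₂) (hc : c ∈ Icc (-1 : ℝ) 1)
    (he : 0 ≤ e) (ht : t ∈ Icc (0 : ℝ) 1) {S : Matrix (ι × κ) (ι × κ) ℂ}
    (hS : IsS (Jc R₁ D₁ R₂ D₂ c) (Nt R₁ D₁ R₂ D₂ c e t) S) :
    2 / Real.pi * ∫ w in Ioi (0 : ℝ), uu R₁ D₁ R₂ D₂ c e t w = rtr (Dc D₁ R₂ D₂ c * S) :=
  wint_re_Zt h₁ h₂ hc he ht hS (Dc_herm h₁ h₂ c)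

/-- `q(c,e) = Tr (D₁ ⊗ R₂) S_0 J_c N_0⁻¹` -/
theorem qc_eq (h₁ : SPair R₁ D₁) (h₂ : SPair R₂ D₂) (hc : c ∈ Icc (-1 : ℝ) 1)
    (he : 0 ≤ e) {S : Matrix (ι × κ) (ι × κ) ℂ}
    (hS : IsS (Jc R₁ D₁ R₂ D₂ c) (Nt R₁ D₁ R₂ D₂ c e 0) S) :
    2 / Real.pi * ∫ w in Ioi (0 : ℝ), vv R₁ D₁ R₂ D₂ c e w =
      rtr ((D₁ ⊗ₖ R₂) * (S * Jc R₁ D₁ R₂ D₂ c * (Nt R₁ D₁ R₂ D₂ c e 0)⁻¹)) :=
  wint_im_Zt h₁ h₂ hc he ⟨le_refl 0, zero_le_one⟩ hS (herm_kron h₁.herm h₂.posDef.isHermitian)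

/-- `c = -1`: `(2/π) ∫ -(1/w) Im Tr B Z_t⁻¹ dw = Tr B N_t⁻¹` -/
theorem wint_im_neg_one (h₁ : SPair R₁ D₁) (h₂ : SPair R₂ D₂) (he : 0 ≤ e)
    (ht : t ∈ Icc (0 : ℝ) 1) {B : Matrix (ι × κ) (ι × κ) ℂ} (hB : B.IsHermitian) :
    2 / Real.pi * ∫ w in Ioi (0 : ℝ), -(1 / w) * (tz R₁ D₁ R₂ D₂ B (-1) e t w).im =
      rtr (B * (Nt R₁ D₁ R₂ D₂ (-1) e t)⁻¹) := by
  have hc : (-1 : ℝ) ∈ Icc (-1 : ℝ) 1 := ⟨le_refl _, by norm_num⟩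
  have hJ : (Jc R₁ D₁ R₂ D₂ (-1)).PosDef := (Xc_posDef h₁ hc).kronecker (Wc_neg_one h₂)
  have h := wint_im_pos (Nt_posDef h₁ h₂ hc he ht) hJ hB
  rw [← h]
  congr 1
  apply integral_congr_ae
  filter_upwards with w
  unfold tz
  rw [Zt_eq_Zm]
  ring

/-- `c = 1`: `(2/π) ∫ -(1/w) Im Tr B Z_t⁻¹ dw = - Tr B N_t⁻¹` -/
theorem wint_im_one (h₁ : SPair R₁ D₁) (h₂ : SPair R₂ D₂) (he : 0 ≤ e)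
    (ht : t ∈ Icc (0 : ℝ) 1) {B : Matrix (ι × κ) (ι × κ) ℂ} (hB : B.IsHermitian) :
    2 / Real.pi * ∫ w in Ioi (0 : ℝ), -(1 / w) * (tz R₁ D₁ R₂ D₂ B 1 e t w).im =
      - rtr (B * (Nt R₁ D₁ R₂ D₂ 1 e t)⁻¹) := by
  have hc : (1 : ℝ) ∈ Icc (-1 : ℝ) 1 := ⟨by norm_num, le_refl _⟩
  have hJ : (-(Jc R₁ D₁ R₂ D₂ 1)).PosDef := by
    have h3 : -(Jc R₁ D₁ R₂ D₂ 1) = Xc R₁ D₁ 1 ⊗ₖ (-(Wc R₂ D₂ 1)) := by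
      unfold Jc
      ext i j
      simp [Matrix.kroneckerMap_apply]
    rw [h3]
    exact (Xc_posDef h₁ hc).kronecker (Wc_one h₂)
  have h := wint_im_neg (Nt_posDef h₁ h₂ hc he ht) hJ hB
  rw [← h]
  congr 1
  apply integral_congr_ae
  filter_upwards with w
  unfold tz
  rw [Zt_eq_Zm]
  ring

end Pool.Agent.A1
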