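import Pool.Agent.Lib_helper32.A1.WI
import Pool.Agent.Lib_helper59.A1.Stmts

/-!
# MP_859019, project A1, block WI: the statement `WIStmt`
-/

set_option autoImplicit false
set_option linter.unusedSectionVars false

open scoped BigOperators ComplexOrder Kronecker MatrixOrder Topology
open MeasureTheory Set Matrix Filter

namespace Pool.Agent.A1

variable {ι : Type} [Fintype ι] [DecidableEq ι] {N J B : Matrix ι ι ℂ}

theorem zm_eq (N J : Matrix ι ι ℂ) (w : ℝ) : N + (Complex.I * w) • J = Zm N J w := by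
  unfold Zm
  rw [mul_comm]

theorem integrableOn_im (hN : N.PosDef) (hJ : J.IsHermitian) (hB : B.IsHermitian) :
    IntegrableOn (fun w : ℝ => (1 / w) * ((B * (N + (Complex.I * w) • J)⁻¹).trace).im)
      (Ioi 0) := by
  obtain ⟨V, W, l, h⟩ := exists_frame hN hJ
  have h1 := (h.integrable_im hB).neg
  refine h1.congr (Filter.Eventually.of_forall fun w => ?_)
  simp only [Pi.neg_apply, neg_neg, zm_eq]
  ring

theorem integral_im_eq (N J B : Matrix ι ι ℂ) :
    ∫ w in Ioi (0 : ℝ), (1 / w) * ((B * (N + (Complex.I * w) • J)⁻¹).trace).im =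
      -∫ w in Ioi (0 : ℝ), -(((B * (Zm N J w)⁻¹).trace).im / w) := by
  rw [← integral_neg]
  apply integral_congr_ae
  refine Filter.Eventually.of_forall fun w => ?_
  simp only [neg_neg, zm_eq]
  ring

end Pool.Agent.A1

namespace Pool.Agent.A1W

open Pool.Agent.A1

theorem wi_stmt : WIStmt := by
  intro ν _ _ N J B hN hJ hB
  refine ⟨fun hu => exists_isS_w hN hJ ((Matrix.isUnit_iff_isUnit_det _).2 hu),
    fun S hS => ⟨?_, ?_⟩, fun hp => ⟨integrableOn_im hN hJ hB, ?_⟩,
    fun hp => ⟨integrableOn_im hN hJ hB, ?_⟩⟩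
  · have h := integrableOn_re hN hJ hS.isUnit_J hB
    refine h.congr (Filter.Eventually.of_forall fun w => ?_)
    simp only [zm_eq]
  · have h := wint_re hN hJ hS hB
    simp only [zm_eq]
    exact h
  · rw [integral_im_eq, mul_neg, wint_im_pos hN hp hB]
    rfl
  · rw [integral_im_eq, mul_neg, wint_im_neg hN hp hB, neg_neg]
    rfl

end Pool.Agent.A1W
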